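import Mathlib
import Pool.Agent.Helper292.ForceCH
import Pool.Agent.Helper901.GrothFinal

/-!
# MP_ab53ee_gt: it is not provable that sums of Grothendieck spaces are Grothendieck

First half: there is a forcing notion all of whose conditions force, over any ground model, that
`ω₁` is preserved and that the continuum hypothesis holds.  Second half: the continuum hypothesis
implies that there are Grothendieck spaces `X` and `Y` (Tychonoff, first countable, zero
dimensional) whose topological sum is not Grothendieck.
-/

set_option autoImplicit false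

open Cardinal
open Pool.Agent.Helper292.ForceCH (OmegaOnePreserved CHHolds)
open Pool.Agent.Helper901.Groth

namespace Pool.Agent.Results.MP_ab53ee_gt.SumFails

/-- Some forcing notion forces the continuum hypothesis (and preserves `ω₁`) over any ground model;
and the continuum hypothesis gives two Grothendieck spaces whose sum is not Grothendieck. -/
theorem result :
    (∃ (P : Type) (_ : Preorder P), Nonempty P ∧
      ∀ p : P, p ∈ OmegaOnePreserved P ∧ p ∈ CHHolds P) ∧
    ((ℵ₁ : Cardinal.{0}) = 𝔠 →
      ∃ (X Y : Type) (_ : TopologicalSpace X) (_ : TopologicalSpace Y),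
        T35Space X ∧ T35Space Y ∧ Grothendieck X ∧ Grothendieck Y ∧ ¬ Grothendieck (X ⊕ Y)) := by
  refine ⟨?_, fun hCH => ?_⟩
  · obtain ⟨P, hP, hne, h⟩ := Pool.Agent.Helper292.ForceCH.exists_forcing
    exact ⟨P, hP, hne, fun p => ⟨(h p).1, (h p).2.2⟩⟩
  · obtain ⟨X, Y, tX, tY, h1, h2, h3, h4, h5, -⟩ := counterexample hCH
    exact ⟨X, Y, tX, tY, h1, h2, h3, h4, h5⟩

end Pool.Agent.Results.MP_ab53ee_gt.SumFails
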