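import Mathlib
import Pool.Agent.Helper901.GrothFinal

/-!
# MP_ab53ee_gt: under the continuum hypothesis a sum of two Grothendieck spaces need not be
Grothendieck
-/

set_option autoImplicit false

open Cardinal
open Pool.Agent.Helper901.Groth

namespace Pool.Agent.Results.MP_ab53ee_gt.SumFailsCH

/-- The continuum hypothesis gives two Grothendieck spaces whose sum is not Grothendieck. -/
theorem result (hCH : (ℵ₁ : Cardinal.{0}) = 𝔠) :
    ∃ (X Y : Type) (_ : TopologicalSpace X) (_ : TopologicalSpace Y),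
      T35Space X ∧ T35Space Y ∧ Grothendieck X ∧ Grothendieck Y ∧ ¬ Grothendieck (X ⊕ Y) := by
  obtain ⟨X, Y, tX, tY, h1, h2, h3, h4, h5, -⟩ := counterexample hCH
  exact ⟨X, Y, tX, tY, h1, h2, h3, h4, h5⟩

end Pool.Agent.Results.MP_ab53ee_gt.SumFailsCH
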